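import Mathlib

set_option autoImplicit false

/-!
Infinite rational subsets of spheres that are not contained in a hyperplane: such sets exist on a
sphere of radius `ρ` in `ℝ^d` exactly when `2 ≤ d` and `ρ ^ 2` is rational.
-/

namespace Pool.Agent.Results.MP_209919_co.NonPlanarRational

/-- `X` is rational: all distances between distinct points of `X` are rational numbers. -/
def IsRationalSet {d : ℕ} (X : Set (EuclideanSpace ℝ (Fin d))) : Prop :=
  ∀ x ∈ X, ∀ y ∈ X, x ≠ y → ∃ q : ℚ, dist x y = (q : ℝ)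

/-- `H` is an (affine) hyperplane of `ℝ^d`: the solution set of `⟪v, x⟫ = b` with `v ≠ 0`. -/
def IsHyperplane {d : ℕ} (H : Set (EuclideanSpace ℝ (Fin d))) : Prop :=
  ∃ v : EuclideanSpace ℝ (Fin d), v ≠ 0 ∧ ∃ b : ℝ, H = {x | inner ℝ v x = b}

/-- The sphere with centre `c` and radius `ρ` contains an infinite rational set which is not
contained in any hyperplane. -/
def HasNonPlanar (d : ℕ) (c : EuclideanSpace ℝ (Fin d)) (ρ : ℝ) : Prop :=
  ∃ X : Set (EuclideanSpace ℝ (Fin d)), X ⊆ Metric.sphere c ρ ∧ X.Infinite ∧ IsRationalSet X ∧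
    ∀ H, IsHyperplane H → ¬ X ⊆ H

/-- A vector having rational inner products with a real basis whose Gram matrix is
rational has rational squared norm. -/
lemma rational_norm {ι : Type*} [Fintype ι] [DecidableEq ι]
    {E : Type*} [NormedAddCommGroup E] [InnerProductSpace ℝ E]
    (b : Module.Basis ι ℝ E) (hG : ∀ i j, ∃ q : ℚ, inner ℝ (b i) (b j) = (q : ℝ))
    (w : E) (hw : ∀ i, ∃ q : ℚ, inner ℝ (b i) w = (q : ℝ)) :
    ∃ q : ℚ, ‖w‖ ^ 2 = (q : ℝ) := by
  choose G hG using hG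
  choose u hu using hw
  -- the rational linear map
  let T : (ι → ℚ) →ₗ[ℚ] (ι → ℚ) := Matrix.mulVecLin (Matrix.of G)
  have hT : ∀ (l : ι → ℚ) (i : ι),
      ((T l i : ℚ) : ℝ) = inner ℝ (b i) (∑ j, (l j : ℝ) • b j) := by
    intro l i
    simp only [T, Matrix.mulVecLin_apply, Matrix.mulVec, dotProduct, Matrix.of_apply]
    rw [inner_sum]
    push_cast
    refine Finset.sum_congr rfl fun j _ => ?_
    rw [inner_smul_right, hG]
    ring
  have hinj : Function.Injective T := by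
    rw [← LinearMap.ker_eq_bot, LinearMap.ker_eq_bot']
    intro l hl
    have h0 : ∀ i, inner ℝ (b i) (∑ j, (l j : ℝ) • b j) = 0 := by
      intro i
      rw [← hT, hl]
      simp
    have h1 : inner ℝ (∑ j, (l j : ℝ) • b j) (∑ j, (l j : ℝ) • b j) = 0 := by
      conv_lhs => rw [sum_inner]
      refine Finset.sum_eq_zero fun i _ => ?_
      rw [inner_smul_left, h0]
      simp
    rw [inner_self_eq_zero] at h1
    have h2 := Fintype.linearIndependent_iff.1 b.linearIndependent _ h1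
    funext j
    have := h2 j
    simpa using this
  have hsurj : Function.Surjective T := LinearMap.injective_iff_surjective.1 hinj
  obtain ⟨l, hl⟩ := hsurj u
  have hw' : w = ∑ j, (l j : ℝ) • b j := by
    refine InnerProductSpace.ext_inner_left_basis b fun i => ?_
    rw [hu, ← hT, hl]
  refine ⟨∑ i, l i * u i, ?_⟩
  rw [← real_inner_self_eq_norm_sq]
  conv_lhs => rw [hw', sum_inner, ← hw']
  push_cast
  refine Finset.sum_congr rfl fun i _ => ?_
  rw [inner_smul_left, hu]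
  simp

lemma necessity {d : ℕ} (c : EuclideanSpace ℝ (Fin d)) (ρ : ℝ)
    (h : HasNonPlanar d c ρ) : 2 ≤ d ∧ ∃ q : ℚ, ρ ^ 2 = (q : ℝ) := by
  obtain ⟨X, hX, hinf, hrat, hhyp⟩ := h
  obtain ⟨x0, hx0⟩ := hinf.nonempty
  constructor
  · by_contra hd
    have hd' : d = 0 ∨ d = 1 := by omega
    rcases hd' with rfl | rfl
    · exact hinf (Set.toFinite X)
    · apply hinf
      -- a sphere in dimension one has at most two points
      have hsub : X ⊆ (fun t : ℝ => (WithLp.toLp 2 (fun _ : Fin 1 => t) :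
          EuclideanSpace ℝ (Fin 1))) '' {c 0 + ρ, c 0 - ρ} := by
        intro x hx
        have h1 := hX hx
        rw [Metric.mem_sphere, EuclideanSpace.dist_eq] at h1
        simp only [Finset.univ_unique, Fin.default_eq_zero, Finset.sum_singleton] at h1
        rw [Real.sqrt_sq dist_nonneg, Real.dist_eq] at h1
        refine ⟨x 0, ?_, ?_⟩
        · rcases abs_choice (x 0 - c 0) with h2 | h2
          · left; linarith
          · right; simp only [Set.mem_singleton_iff]; linarith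
        · ext i
          fin_cases i
          rfl
      exact (Set.toFinite _).subset hsub
  · -- the differences span
    set S : Set (EuclideanSpace ℝ (Fin d)) := (fun x => x - x0) '' X with hS
    have hspan : Submodule.span ℝ S = ⊤ := by
      by_contra hne
      have h1 : (Submodule.span ℝ S)ᗮ ≠ ⊥ := by
        intro h2
        exact hne ((Submodule.orthogonal_eq_bot_iff).1 h2)
      obtain ⟨v, hv, hv0⟩ := (Submodule.ne_bot_iff _).1 h1
      refine hhyp {x | inner ℝ v x = inner ℝ v x0} ⟨v, hv0, _, rfl⟩ ?_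
      intro x hx
      have h2 : inner ℝ (x - x0) v = 0 :=
        (Submodule.mem_orthogonal _ _).1 hv _ (Submodule.subset_span ⟨x, hx, rfl⟩)
      rw [real_inner_comm, inner_sub_right] at h2
      simp only [Set.mem_ofPred_eq]
      linarith
    have hin : ∀ s ∈ S, ∃ q : ℚ, ‖s‖ ^ 2 = (q : ℝ) := by
      rintro s ⟨x, hx, rfl⟩
      by_cases hxx : x = x0
      · exact ⟨0, by simp [hxx]⟩
      · obtain ⟨q, hq⟩ := hrat x hx x0 hx0 hxx
        exact ⟨q ^ 2, by rw [← dist_eq_norm, hq]; push_cast; ring⟩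
    have hin2 : ∀ s ∈ S, ∀ t ∈ S, ∃ q : ℚ, inner ℝ s t = (q : ℝ) := by
      intro s hs t ht
      obtain ⟨q1, hq1⟩ := hin s hs
      obtain ⟨q2, hq2⟩ := hin t ht
      have h3 : ∃ q : ℚ, ‖s - t‖ ^ 2 = (q : ℝ) := by
        obtain ⟨x, hx, rfl⟩ := hs
        obtain ⟨y, hy, rfl⟩ := ht
        by_cases hxy : x = y
        · exact ⟨0, by simp [hxy]⟩
        · obtain ⟨q, hq⟩ := hrat x hx y hy hxy
          refine ⟨q ^ 2, ?_⟩
          have : x - x0 - (y - x0) = x - y := by abel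
          simp only [this]
          rw [← dist_eq_norm, hq]; push_cast; ring
      obtain ⟨q3, hq3⟩ := h3
      refine ⟨(q1 + q2 - q3) / 2, ?_⟩
      have h4 := norm_sub_sq_real s t
      push_cast
      rw [← hq1, ← hq2, ← hq3]
      linarith
    have hw : ∀ s ∈ S, ∃ q : ℚ, inner ℝ s (c - x0) = (q : ℝ) := by
      rintro s ⟨x, hx, rfl⟩
      obtain ⟨q, hq⟩ := hin (x - x0) ⟨x, hx, rfl⟩
      refine ⟨q / 2, ?_⟩
      have h1 := Metric.mem_sphere.1 (hX hx)
      have h2 := Metric.mem_sphere.1 (hX hx0)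
      rw [dist_comm, dist_eq_norm] at h1 h2
      have h3 : c - x = (c - x0) - (x - x0) := by abel
      rw [h3] at h1
      have h4 := norm_sub_sq_real (c - x0) (x - x0)
      rw [h1, h2, real_inner_comm] at h4
      push_cast
      rw [← hq]
      linarith
    let b := Module.Basis.ofSpan (K := ℝ) (s := S) hspan.ge
    have hb : ∀ i, b i ∈ S := by
      intro i
      have := Module.Basis.ofSpan_subset (K := ℝ) (s := S) hspan.ge
      apply this
      exact ⟨i, rfl⟩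
    haveI : Fintype ((linearIndepOn_empty ℝ (id : EuclideanSpace ℝ (Fin d) →
        EuclideanSpace ℝ (Fin d))).extend (Set.empty_subset S)) :=
      FiniteDimensional.fintypeBasisIndex b
    classical
    obtain ⟨q, hq⟩ := rational_norm b (fun i j => hin2 _ (hb i) _ (hb j)) (c - x0)
      (fun i => hw _ (hb i))
    refine ⟨q, ?_⟩
    rw [← hq, ← Metric.mem_sphere.1 (hX hx0), dist_comm, dist_eq_norm]

/-- the planar point with parameter `t`. -/
noncomputable def pt (ρ t : ℝ) : EuclideanSpace ℝ (Fin 2) :=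
  WithLp.toLp 2 ![ρ * (((1 - ρ ^ 2 * t ^ 2) ^ 2 - 4 * ρ ^ 2 * t ^ 2) / (1 + ρ ^ 2 * t ^ 2) ^ 2),
    ρ * (4 * ρ * t * (1 - ρ ^ 2 * t ^ 2) / (1 + ρ ^ 2 * t ^ 2) ^ 2)]

lemma pt_norm (ρ t : ℝ) (hρ : 0 < ρ) : ‖pt ρ t‖ = ρ := by
  have h0 : (1 + ρ ^ 2 * t ^ 2) ≠ 0 := by positivity
  rw [EuclideanSpace.norm_eq]
  simp only [Fin.sum_univ_two, pt, Real.norm_eq_abs, sq_abs]
  rw [Real.sqrt_eq_iff_mul_self_eq (by positivity) hρ.le]
  simp only [Matrix.cons_val_zero, Matrix.cons_val_one]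
  field_simp
  ring

lemma pt_dist (ρ t s : ℝ) (ht : 0 ≤ t) (hs : 0 ≤ s) :
    dist (pt ρ t) (pt ρ s) = 4 * ρ ^ 2 * |t - s| * (1 + ρ ^ 2 * t * s) /
      ((1 + ρ ^ 2 * t ^ 2) * (1 + ρ ^ 2 * s ^ 2)) := by
  have h0 : (1 + ρ ^ 2 * t ^ 2) ≠ 0 := by positivity
  have h1 : (1 + ρ ^ 2 * s ^ 2) ≠ 0 := by positivity
  rw [EuclideanSpace.dist_eq, Real.sqrt_eq_iff_mul_self_eq (by positivity) (by positivity)]
  simp only [Fin.sum_univ_two, pt, Real.dist_eq, sq_abs]
  simp only [Matrix.cons_val_zero, Matrix.cons_val_one]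
  have h2 : |t - s| * |t - s| = (t - s) ^ 2 := by rw [← sq, sq_abs]
  have h3 : 4 * ρ ^ 2 * |t - s| * (1 + ρ ^ 2 * t * s) /
      ((1 + ρ ^ 2 * t ^ 2) * (1 + ρ ^ 2 * s ^ 2)) * (4 * ρ ^ 2 * |t - s| * (1 + ρ ^ 2 * t * s) /
      ((1 + ρ ^ 2 * t ^ 2) * (1 + ρ ^ 2 * s ^ 2))) = 16 * ρ ^ 4 * (|t - s| * |t - s|) *
      (1 + ρ ^ 2 * t * s) ^ 2 / ((1 + ρ ^ 2 * t ^ 2) * (1 + ρ ^ 2 * s ^ 2)) ^ 2 := by
    field_simp
    ring
  rw [h3, h2]
  field_simp
  ring

lemma base_case (ρ : ℝ) (hρ : 0 < ρ) (hq : ∃ q : ℚ, ρ ^ 2 = (q : ℝ)) :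
    HasNonPlanar 2 0 ρ := by
  obtain ⟨q, hq⟩ := hq
  have hinj : Function.Injective fun n : ℕ => pt ρ n := by
    intro m n hmn
    have h1 : dist (pt ρ m) (pt ρ n) = 0 := by rw [show pt ρ m = pt ρ n from hmn, dist_self]
    rw [pt_dist ρ m n (by positivity) (by positivity)] at h1
    have h2 : |(m : ℝ) - n| = 0 := by
      by_contra hne
      have : 0 < |(m : ℝ) - n| := lt_of_le_of_ne (abs_nonneg _) (Ne.symm hne)
      have h3 : 0 < 4 * ρ ^ 2 * |(m : ℝ) - n| * (1 + ρ ^ 2 * m * n) /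
        ((1 + ρ ^ 2 * (m : ℝ) ^ 2) * (1 + ρ ^ 2 * (n : ℝ) ^ 2)) := by positivity
      linarith
    rw [abs_eq_zero, sub_eq_zero] at h2
    exact_mod_cast h2
  refine ⟨Set.range fun n : ℕ => pt ρ n, ?_, Set.infinite_range_of_injective hinj, ?_, ?_⟩
  · rintro _ ⟨n, rfl⟩
    rw [mem_sphere_zero_iff_norm]
    exact pt_norm ρ n hρ
  · rintro _ ⟨m, rfl⟩ _ ⟨n, rfl⟩ _
    refine ⟨4 * q * |(m : ℚ) - n| * (1 + q * m * n) / ((1 + q * m ^ 2) * (1 + q * n ^ 2)), ?_⟩
    simp only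
    rw [pt_dist ρ m n (by positivity) (by positivity), hq]
    push_cast
    ring
  · rintro H ⟨v, hv, b, rfl⟩ hsub
    have key : ∀ n : ℕ, inner ℝ v (pt ρ n) = b := fun n => hsub ⟨n, rfl⟩
    have hρ0 : ρ ≠ 0 := hρ.ne'
    have e : ∀ t : ℝ, inner ℝ v (pt ρ t) * (1 + ρ ^ 2 * t ^ 2) ^ 2 =
        ρ * (v 0 * ((1 - ρ ^ 2 * t ^ 2) ^ 2 - 4 * ρ ^ 2 * t ^ 2) +
          v 1 * (4 * ρ * t * (1 - ρ ^ 2 * t ^ 2))) := by
      intro t
      have h0 : (1 + ρ ^ 2 * t ^ 2) ≠ 0 := by positivity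
      simp only [PiLp.inner_apply, Fin.sum_univ_two, pt, RCLike.inner_apply, conj_trivial]
      simp only [Matrix.cons_val_zero, Matrix.cons_val_one]
      field_simp
    have e0 := e 0
    have e1 := e 1
    have e2 := e 2
    have k0 := key 0
    have k1 := key 1
    have k2 := key 2
    push_cast at k0 k1 k2
    rw [k0] at e0
    rw [k1] at e1
    rw [k2] at e2
    have hb : b = ρ * v 0 := by linarith [e0]
    rw [hb] at e1 e2
    have f1 : v 1 * (1 - ρ ^ 2) = 2 * ρ * v 0 := by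
      have : ρ ^ 2 * (v 1 * (1 - ρ ^ 2) - 2 * ρ * v 0) = 0 := by linear_combination (-1 / 4) * e1
      have h := (mul_eq_zero.1 this).resolve_left (by positivity)
      linarith
    have f2 : v 1 * (1 - 4 * ρ ^ 2) = 4 * ρ * v 0 := by
      have : ρ ^ 2 * (v 1 * (1 - 4 * ρ ^ 2) - 4 * ρ * v 0) = 0 := by
        linear_combination (-1 / 8) * e2
      have h := (mul_eq_zero.1 this).resolve_left (by positivity)
      linarith
    have f3 : v 1 * (1 + 2 * ρ ^ 2) = 0 := by linear_combination 2 * f1 - f2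
    have f4 : v 1 = 0 := (mul_eq_zero.1 f3).resolve_right (by positivity)
    have f5 : v 0 = 0 := by
      rw [f4] at f1
      have : ρ * v 0 = 0 := by linarith
      exact (mul_eq_zero.1 this).resolve_left hρ0
    apply hv
    ext i
    fin_cases i
    · exact f5
    · exact f4

/-- put the coordinate `z` in front -/
noncomputable def put {d : ℕ} (z : ℝ) (x : EuclideanSpace ℝ (Fin d)) :
    EuclideanSpace ℝ (Fin (d + 1)) := WithLp.toLp 2 (Fin.cons z x)

lemma put_zero {d : ℕ} (z : ℝ) (x : EuclideanSpace ℝ (Fin d)) : put z x 0 = z := rfl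

lemma put_succ {d : ℕ} (z : ℝ) (x : EuclideanSpace ℝ (Fin d)) (i : Fin d) :
    put z x i.succ = x i := rfl

lemma put_norm_sq {d : ℕ} (z : ℝ) (x : EuclideanSpace ℝ (Fin d)) :
    ‖put z x‖ ^ 2 = z ^ 2 + ‖x‖ ^ 2 := by
  rw [EuclideanSpace.norm_sq_eq, EuclideanSpace.norm_sq_eq, Fin.sum_univ_succ]
  simp only [put_zero, put_succ, Real.norm_eq_abs, sq_abs]

lemma put_dist_sq {d : ℕ} (z w : ℝ) (x y : EuclideanSpace ℝ (Fin d)) :
    dist (put z x) (put w y) ^ 2 = (z - w) ^ 2 + dist x y ^ 2 := by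
  rw [EuclideanSpace.dist_sq_eq, EuclideanSpace.dist_sq_eq, Fin.sum_univ_succ]
  simp only [put_zero, put_succ, Real.dist_eq, sq_abs]

lemma step {d : ℕ} (ih : ∀ ρ : ℝ, 0 < ρ → (∃ q : ℚ, ρ ^ 2 = (q : ℝ)) → HasNonPlanar d 0 ρ)
    (R : ℝ) (hR : 0 < R) (hq : ∃ q : ℚ, R ^ 2 = (q : ℝ)) : HasNonPlanar (d + 1) 0 R := by
  obtain ⟨q, hq⟩ := hq
  obtain ⟨c, hc0, hc1⟩ := exists_rat_btwn (show (0 : ℝ) < 2 * R by linarith)
  have hpos : 0 < (c : ℝ) ^ 2 - (c : ℝ) ^ 4 / (4 * R ^ 2) := by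
    rw [sub_pos, div_lt_iff₀ (by positivity)]
    have h1 : (c : ℝ) ^ 2 < (2 * R) ^ 2 := by
      apply pow_lt_pow_left₀ hc1 hc0.le (by norm_num)
    have h2 : 0 < (c : ℝ) ^ 2 := by positivity
    nlinarith
  set ρ : ℝ := Real.sqrt ((c : ℝ) ^ 2 - (c : ℝ) ^ 4 / (4 * R ^ 2)) with hρ
  have hρ2 : ρ ^ 2 = (c : ℝ) ^ 2 - (c : ℝ) ^ 4 / (4 * R ^ 2) := Real.sq_sqrt hpos.le
  have hρpos : 0 < ρ := Real.sqrt_pos.2 hpos
  obtain ⟨X, hX, hinf, hrat, hhyp⟩ := ih ρ hρpos
    ⟨c ^ 2 - c ^ 4 / (4 * q), by rw [hρ2, hq]; push_cast; ring⟩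
  set z : ℝ := R - (c : ℝ) ^ 2 / (2 * R) with hz
  have hzR : R - z = (c : ℝ) ^ 2 / (2 * R) := by rw [hz]; ring
  have hcpos : (0 : ℝ) < (c : ℝ) ^ 2 / (2 * R) := by positivity
  have hXn : ∀ x ∈ X, ‖x‖ = ρ := fun x hx => mem_sphere_zero_iff_norm.1 (hX hx)
  have hpole : ∀ x ∈ X, dist (put z x) (put R 0) = (c : ℝ) := by
    intro x hx
    have h1 : dist (put z x) (put R 0) ^ 2 = (c : ℝ) ^ 2 := by
      rw [put_dist_sq, dist_zero_right, hXn x hx, hρ2]
      have : (z - R) ^ 2 = ((c : ℝ) ^ 2 / (2 * R)) ^ 2 := by rw [← hzR]; ring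
      rw [this]
      field_simp
      ring
    exact (sq_eq_sq₀ dist_nonneg hc0.le).1 h1
  refine ⟨insert (put R 0) (put z '' X), ?_, ?_, ?_, ?_⟩
  · intro y hy
    rw [mem_sphere_zero_iff_norm]
    rcases hy with rfl | ⟨x, hx, rfl⟩
    · have : ‖put R (0 : EuclideanSpace ℝ (Fin d))‖ ^ 2 = R ^ 2 := by
        rw [put_norm_sq]; simp
      exact (sq_eq_sq₀ (norm_nonneg _) hR.le).1 this
    · have : ‖put z x‖ ^ 2 = R ^ 2 := by
        rw [put_norm_sq, hXn x hx, hρ2, hz]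
        field_simp
        ring
      exact (sq_eq_sq₀ (norm_nonneg _) hR.le).1 this
  · apply Set.Infinite.mono (Set.subset_insert _ _)
    apply hinf.image
    intro x _ y _ hxy
    have h1 : dist (put z x) (put z y) ^ 2 = 0 := by
      rw [show put z x = put z y from hxy]; simp
    rw [put_dist_sq] at h1
    have h2 : dist x y = 0 := by nlinarith [sq_nonneg (dist x y)]
    exact dist_eq_zero.1 h2
  · intro y hy y' hy' hne
    rcases hy with rfl | ⟨x, hx, rfl⟩
    · rcases hy' with rfl | ⟨x', hx', rfl⟩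
      · exact absurd rfl hne
      · exact ⟨c, by rw [dist_comm]; exact hpole x' hx'⟩
    · rcases hy' with rfl | ⟨x', hx', rfl⟩
      · exact ⟨c, hpole x hx⟩
      · have hxx : x ≠ x' := fun h => hne (by rw [h])
        obtain ⟨r, hr⟩ := hrat x hx x' hx' hxx
        refine ⟨r, ?_⟩
        have h1 : dist (put z x) (put z x') ^ 2 = dist x x' ^ 2 := by
          rw [put_dist_sq]; ring
        rw [← hr]
        exact (sq_eq_sq₀ dist_nonneg dist_nonneg).1 h1
  · rintro H ⟨v, hv, b, rfl⟩ hsub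
    let v' : EuclideanSpace ℝ (Fin d) := WithLp.toLp 2 fun i => v i.succ
    have hin : ∀ (w : ℝ) (x : EuclideanSpace ℝ (Fin d)),
        inner ℝ v (put w x) = v 0 * w + inner ℝ v' x := by
      intro w x
      simp only [PiLp.inner_apply, Fin.sum_univ_succ, put_zero, put_succ, RCLike.inner_apply,
        conj_trivial, v']
      ring
    have hp : v 0 * R = b := by
      have := hsub (Set.mem_insert _ _)
      simp only [Set.mem_ofPred_eq] at this
      rw [hin] at this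
      simpa using this
    by_cases hv' : v' = 0
    · obtain ⟨x, hx⟩ := hinf.nonempty
      have h1 : inner ℝ v (put z x) = b := hsub (Set.mem_insert_of_mem _ ⟨x, hx, rfl⟩)
      rw [hin, hv', inner_zero_left, add_zero] at h1
      have h2 : v 0 * (R - z) = 0 := by rw [mul_sub, hp, h1, sub_self]
      rw [hzR] at h2
      have h3 : v 0 = 0 := (mul_eq_zero.1 h2).resolve_right hcpos.ne'
      apply hv
      ext i
      refine Fin.cases h3 (fun j => ?_) i
      have : v' j = 0 := by rw [hv']; rfl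
      exact this
    · apply hhyp {x | inner ℝ v' x = b - v 0 * z} ⟨v', hv', _, rfl⟩
      intro x hx
      have h1 : inner ℝ v (put z x) = b := hsub (Set.mem_insert_of_mem _ ⟨x, hx, rfl⟩)
      rw [hin] at h1
      simp only [Set.mem_ofPred_eq]
      linarith

lemma sufficiency (d : ℕ) (hd : 2 ≤ d) : ∀ ρ : ℝ, 0 < ρ → (∃ q : ℚ, ρ ^ 2 = (q : ℝ)) →
    HasNonPlanar d 0 ρ := by
  induction d, hd using Nat.le_induction with
  | base => exact base_case
  | succ n _ ih => exact step ih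

lemma translate {d : ℕ} (c : EuclideanSpace ℝ (Fin d)) (ρ : ℝ) (h : HasNonPlanar d 0 ρ) :
    HasNonPlanar d c ρ := by
  obtain ⟨X, hX, hinf, hrat, hhyp⟩ := h
  refine ⟨(fun x => x + c) '' X, ?_, ?_, ?_, ?_⟩
  · rintro _ ⟨x, hx, rfl⟩
    have := mem_sphere_zero_iff_norm.1 (hX hx)
    rw [Metric.mem_sphere, dist_eq_norm]
    simpa using this
  · exact hinf.image (add_left_injective c).injOn
  · rintro _ ⟨x, hx, rfl⟩ _ ⟨y, hy, rfl⟩ hne
    obtain ⟨q, hq⟩ := hrat x hx y hy (fun h => hne (by rw [h]))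
    exact ⟨q, by simpa using hq⟩
  · rintro H ⟨v, hv, b, rfl⟩ hsub
    apply hhyp {x | inner ℝ v x = b - inner ℝ v c} ⟨v, hv, _, rfl⟩
    intro x hx
    have := hsub ⟨x, hx, rfl⟩
    simp only [Set.mem_ofPred_eq, inner_add_right] at this ⊢
    linarith

/-- For every dimension `d ≥ 1`, every centre and every radius `ρ > 0`: the sphere contains an
infinite rational set that is not contained in any hyperplane if and only if `d ≥ 2` and `ρ ^ 2`
is a rational number. -/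
theorem result (d : ℕ) (_hd : 1 ≤ d) (c : EuclideanSpace ℝ (Fin d)) (ρ : ℝ) (hρ : 0 < ρ) :
    HasNonPlanar d c ρ ↔ 2 ≤ d ∧ ∃ q : ℚ, ρ ^ 2 = (q : ℝ) :=
  ⟨necessity c ρ, fun h => translate c ρ (sufficiency d h.1 ρ hρ h.2)⟩

end Pool.Agent.Results.MP_209919_co.NonPlanarRational
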